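import Pool.Agent.Work.MP_9390ab_lc.Poly3

/-!
# Generalized PCG recognition with at most `k` inner vertices is NP-hard for every `k ≥ 1`

Given a graph `G` and a set `S` of non-edges of `G`, decide whether some weighted tree with at most
`k` inner vertices, with a suitable interval, has a graph which contains all edges of `G` and no pair
of `S`. For `k ≥ 2` there is a gap: the inputs of the reduction with the answer no are realised by no
tree at all.

Idea. (1) If `c, d` is a pair of `S`, and `p₀, p₁, p₂, p₃` are joined by edges to `c` and `d`, with
edges `p₀p₂`, `p₁p₃` and the other four pairs of `p`s in `S`, then the distance of `c` and `d` is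
smaller than `dmin`. (2) With such gadgets one forces two columns of leaves around two anchors, and
then the distance of a leaf of the first column and a leaf of the second one is, by the four point
condition, a sum `x + y`; in a star it is such a sum without any gadget. (3) A cyclic sequence of
rungs `(aᵢ, bᵢ)` in `S` with edges `(aᵢ, bᵢ₊₁)` is a not-all-equal constraint on the kinds
(`< dmin` or `> dmax`) of the rungs.
-/

set_option autoImplicit false

namespace Pool.Agent.Results.MP_9390ab_lc.EveryBound

open Pool.Agent.PCG

/-- The codes of the inputs of generalized PCG recognition which are realised by a tree with at most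
`k` inner vertices. -/
def BoundedLang (k : ℕ) (x : List Bool) : Prop :=
  ∃ I : GInput, I.encode = x ∧ ∃ M : WTree (Fin I.n), I.Realises M ∧ M.inner ≤ k

/-- For every `k ≥ 1`, every language in NP is polynomial-time many-one reducible to generalized PCG
recognition with at most `k` inner vertices. Moreover, there is a reduction `f` such that `f x` codes
an input which is realised by a tree with at most two inner vertices if `x` is in the language and by
no tree at all otherwise. -/
theorem result :
    (∀ k, 1 ≤ k → ∀ L ∈ N68a2faeb.NP, ∃ f : List Bool → List Bool,
      N68a2faeb.IsPolyTime f ∧ ∀ x, L x = true ↔ BoundedLang k (f x)) ∧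
    ∀ L ∈ N68a2faeb.NP, ∃ f : List Bool → List Bool, N68a2faeb.IsPolyTime f ∧
      ∀ x, ∃ I : GInput, I.encode = f x ∧
        (L x = true → ∃ M : WTree (Fin I.n), I.Realises M ∧ M.inner ≤ 2) ∧
        (L x = false → ∀ M : WTree (Fin I.n), ¬ I.Realises M) :=
  ⟨fun _ hk _ hL => hard_every hk hL, fun _ hL => hard_gap3 hL⟩

end Pool.Agent.Results.MP_9390ab_lc.EveryBound
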