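import Pool.Agent.Work.MP_9390ab_lc.CN.Asm
import Pool.Agent.Work.MP_9390ab_lc.CN.AsmCK
import Pool.Agent.Work.MP_9390ab_lc.CN.Lim2
import Pool.Agent.Work.MP_9390ab_lc.CN.I_PC
import Pool.Agent.Work.MP_9390ab_lc.CN.I_LB

/-!
# Pairwise compatibility graphs and yes-inputs of generalized PCG recognition are rare

`pcgs n` is the set of the pairwise compatibility graphs with the vertices `Fin n`, `inputs n` the
set of the inputs `(G, S)` of generalized PCG recognition on these vertices and `yesInputs n` the
set of the inputs with the answer yes.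

Idea. For a fixed leaf `r` the similarity `(d(u, r) + d(v, r) - d(u, v)) / 2` is ultrametric by the
four point condition, so it takes its values among `n` numbers, in one of at most `n ^ (2 * n)` ways.
Hence the graph of a tree is determined by the way and by the signs of linear forms in `2 n + 2`
parameters, and by the lemma of Sauer and Shelah linear forms have few sign patterns.
-/

set_option autoImplicit false

namespace Pool.Agent.Results.MP_9390ab_lc.FewInstances

open Pool.Agent.CN Filter Topology

private theorem pow_le (n : ℕ) : n ^ (7 * n) ≤ n ^ (8 * n) := by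
  rcases Nat.eq_zero_or_pos n with rfl | hn
  · simp
  · exact Nat.pow_le_pow_right hn (by omega)

/-- The number of pairwise compatibility graphs on `n` labelled vertices is at most `n ^ (7 * n)`
and, for `n = 2 * m`, at least `m !`; at most `n ^ (7 * n) * 2 ^ n.choose 2` of the
`3 ^ n.choose 2` inputs of generalized PCG recognition have the answer yes; both fractions tend
to zero. -/
theorem result :
    (∀ n : ℕ, (pcgs n).ncard ≤ n ^ (7 * n)) ∧
    (∀ m : ℕ, 1 ≤ m → m.factorial ≤ (pcgs (2 * m)).ncard) ∧
    (∀ n : ℕ, (yesInputs n).ncard ≤ n ^ (7 * n) * 2 ^ n.choose 2) ∧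
    (∀ n : ℕ, (inputs n).ncard = 3 ^ n.choose 2) ∧
    Tendsto (fun n : ℕ => ((pcgs n).ncard : ℝ) / Nat.card (SimpleGraph (Fin n))) atTop (𝓝 0) ∧
    Tendsto (fun n : ℕ => ((yesInputs n).ncard : ℝ) / (inputs n).ncard) atTop (𝓝 0) := by
  have h4 : ∀ n : ℕ, (inputs n).ncard = 3 ^ n.choose 2 := inputs_card pr_PC
  exact ⟨pcgs_le7, pr_LB, yesInputs_le7, h4, lim_pcgs fun n => (pcgs_le7 n).trans (pow_le n),
    lim_yes (fun n => (yesInputs_le7 n).trans (Nat.mul_le_mul_right _ (pow_le n))) h4⟩

end Pool.Agent.Results.MP_9390ab_lc.FewInstances
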