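import Pool.Agent.Work.MP_9390ab_lc.TT.AllM

set_option autoImplicit false

namespace Pool.Agent.Results.MP_9390ab_lc.TwinKernel

open Pool.Agent.PCG Pool.Agent.PCG.TT

/-- (1) Let `M` be a module of the finite graph `G` such that `G[M]` is the complement of a leaf
power, and let `a, b` be adjacent vertices of `M`. Then `G` is a pairwise compatibility graph (PCG)
if and only if the graph induced on the vertices outside `M` together with `a` and `b` is one.
(2) If the vertex `v` has a false twin, or two different true twins, then `G` is a PCG if and only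
if `G - v` is one. (3) If the vertices of `G` are partitioned into `k` modules (the classes of `c`),
each of which has no edge, or is complete, or induces the complement of a leaf power, then `G` is a
PCG if and only if all its nonempty induced subgraphs with at most `2 k` vertices are. -/
theorem result :
    (∀ (V : Type) (_ : Finite V) (G : SimpleGraph V) (M : Set V) (a b : V), a ∈ M → b ∈ M →
      G.Adj a b → Mod G M → CoLP (G.induce M) →
        (IsPCG G ↔ IsPCG (G.induce (Mᶜ ∪ {a, b})))) ∧
    (∀ (V : Type) (_ : Finite V) (G : SimpleGraph V) (v : V), (∃ u, u ≠ v) →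
      (FalseTwin G Set.univ v ∨ TwoTwins G Set.univ v) →
        (IsPCG G ↔ IsPCG (G.induce {u | u ≠ v}))) ∧
    ∀ (V : Type) (_ : Finite V) (_ : Nonempty V) (G : SimpleGraph V) (k : ℕ) (c : V → Fin k),
      (∀ v, Mod G {u | c u = c v}) →
      (∀ v, (∀ x y, c x = c v → c y = c v → ¬ G.Adj x y) ∨
        (∀ x y, c x = c v → c y = c v → x ≠ y → G.Adj x y) ∨
        CoLP (G.induce {u | c u = c v})) →
      (IsPCG G ↔ ∀ S : Finset V, S.Nonempty → S.card ≤ 2 * k → IsPCG (G.induce (S : Set V))) :=
  ⟨all_MR, all_EY, all_MK⟩

end Pool.Agent.Results.MP_9390ab_lc.TwinKernel
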